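import Mathlib

/-!
# MP_30c7ca: the groups `G_σ` always contain an element of order 2

For every cyclic automorphism `σ` of the rational Urysohn space, the closure of the group generated
by its extension to the Urysohn space contains an element of order 2.
-/

namespace Pool.Agent.Results.MP_30c7ca_gt.OrderTwo

open Filter Topology

/-- `Q` is the rational Urysohn space: the Fraïssé limit of the finite metric spaces with rational
distances, i.e. it is countable with rational distances, every finite metric space with rational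
distances embeds isometrically, and every isometry between finite subsets extends to a surjective
isometry of `Q`. -/
structure IsRationalUrysohn (Q : Type) [MetricSpace Q] : Prop where
  countable : Countable Q
  rational : ∀ x y : Q, ∃ q : ℚ, dist x y = q
  universal : ∀ (X : Type) [MetricSpace X] [Finite X], (∀ x y : X, ∃ q : ℚ, dist x y = q) →
    ∃ f : X → Q, Isometry f
  homogeneous : ∀ (s : Finset Q) (f : s → Q), Isometry f → ∃ g : Q ≃ᵢ Q, ∀ x : s, g x = f x

/-- `σ` is a cyclic automorphism: its powers act regularly. -/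
def IsCyclicAut {Q : Type} [MetricSpace Q] (σ : Q ≃ᵢ Q) : Prop :=
  ∀ x y : Q, ∃! n : ℤ, (σ ^ n) x = y

/-- `g` lies in the closure, for pointwise convergence, of the group generated by `τ`. -/
def InClosure {U : Type} [MetricSpace U] (τ g : U ≃ᵢ U) : Prop :=
  ∀ (s : Finset U) (ε : ℝ), 0 < ε → ∃ n : ℤ, ∀ x ∈ s, dist ((τ ^ n) x) (g x) < ε

section Ext

variable {Q : Type} [MetricSpace Q]

/-- the one-point extension of a finite subset by a Katetov function -/
noncomputable def extDist (s : Finset Q) (h : Q → ℝ) : Option s → Option s → ℝ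
  | none, none => 0
  | none, some a => h a
  | some a, none => h a
  | some a, some b => dist (a : Q) b

theorem extension (hQ : IsRationalUrysohn Q) (s : Finset Q) (h : Q → ℝ)
    (hpos : ∀ a ∈ s, 0 < h a) (hrat : ∀ a ∈ s, ∃ q : ℚ, h a = q)
    (h1 : ∀ a ∈ s, ∀ b ∈ s, h a ≤ h b + dist a b)
    (h2 : ∀ a ∈ s, ∀ b ∈ s, dist a b ≤ h a + h b) :
    ∃ x : Q, ∀ a ∈ s, dist x a = h a := by
  classical
  let X : MetricSpace (Option s) :=
    { dist := extDist s h
      dist_self := by
        intro x
        cases x with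
        | none => rfl
        | some a => exact dist_self _
      dist_comm := by
        intro x y
        cases x <;> cases y
        · rfl
        · rfl
        · rfl
        · exact dist_comm _ _
      dist_triangle := by
        intro x y z
        cases x with
        | none =>
          cases y with
          | none =>
            cases z with
            | none => change (0 : ℝ) ≤ 0 + 0; norm_num
            | some c => change h c ≤ 0 + h c; linarith
          | some b =>
            cases z with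
            | none =>
              change (0 : ℝ) ≤ h b + h b
              have := hpos b b.2; linarith
            | some c =>
              change h c ≤ h b + dist (b : Q) c
              have := h1 c c.2 b b.2
              rw [dist_comm] at this; exact this
        | some a =>
          cases y with
          | none =>
            cases z with
            | none => change h a ≤ h a + 0; linarith
            | some c => exact h2 a a.2 c c.2
          | some b =>
            cases z with
            | none =>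
              change h a ≤ dist (a : Q) b + h b
              have := h1 a a.2 b b.2; linarith
            | some c => exact dist_triangle _ _ _
      eq_of_dist_eq_zero := by
        intro x y hxy
        cases x with
        | none =>
          cases y with
          | none => rfl
          | some b =>
            have h3 : h b = 0 := hxy
            have := hpos b b.2
            linarith
        | some a =>
          cases y with
          | none =>
            have h3 : h a = 0 := hxy
            have := hpos a a.2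
            linarith
          | some b =>
            have h3 : dist (a : Q) b = 0 := hxy
            rw [dist_eq_zero] at h3
            rw [Subtype.ext h3] }
  obtain ⟨f, hf⟩ := @IsRationalUrysohn.universal Q _ hQ (Option s) X _ (by
    intro x y
    cases x with
    | none =>
      cases y with
      | none => exact ⟨0, by change (0 : ℝ) = ((0 : ℚ) : ℝ); simp⟩
      | some b => exact hrat b b.2
    | some a =>
      cases y with
      | none => exact hrat a a.2
      | some b => exact hQ.rational a b)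
  have hfd : ∀ x y : Option s, dist (f x) (f y) = extDist s h x y := fun x y => hf.dist_eq x y
  -- the copy of `s` inside `Q`
  set t : Finset Q := Finset.univ.image (fun a : s => f (some a)) with ht
  have hfi : Function.Injective (fun a : s => f (some a)) := by
    intro a b hab
    have h3 := hfd (some a) (some b)
    have h4 : f (some a) = f (some b) := hab
    rw [h4, dist_self] at h3
    have h5 : dist (a : Q) b = 0 := h3.symm
    rw [dist_eq_zero] at h5
    exact Subtype.ext h5
  have hmem : ∀ x : t, ∃ a : s, f (some a) = x := by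
    rintro ⟨x, hx⟩
    rw [ht, Finset.mem_image] at hx
    obtain ⟨a, _, ha⟩ := hx
    exact ⟨a, ha⟩
  choose back hback using hmem
  obtain ⟨g, hg⟩ := hQ.homogeneous t (fun x => (back x : Q)) (by
    apply Isometry.of_dist_eq
    intro x y
    have h3 := hfd (some (back x)) (some (back y))
    rw [hback, hback] at h3
    exact h3.symm)
  refine ⟨g (f none), fun a ha => ?_⟩
  have hat : f (some ⟨a, ha⟩) ∈ t := by
    rw [ht, Finset.mem_image]
    exact ⟨⟨a, ha⟩, Finset.mem_univ _, rfl⟩
  have h3 : back ⟨f (some ⟨a, ha⟩), hat⟩ = ⟨a, ha⟩ := by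
    apply hfi
    exact hback ⟨f (some ⟨a, ha⟩), hat⟩
  have h4 : g (f (some ⟨a, ha⟩)) = a := by
    have := hg ⟨f (some ⟨a, ha⟩), hat⟩
    rw [h3] at this
    exact this
  calc dist (g (f none)) a = dist (g (f none)) (g (f (some ⟨a, ha⟩))) := by rw [h4]
    _ = dist (f none) (f (some ⟨a, ha⟩)) := g.dist_eq _ _
    _ = h a := hfd none (some ⟨a, ha⟩)

end Ext

section Chain

variable {Q : Type} [MetricSpace Q] (σ : Q ≃ᵢ Q) (x₀ : Q)

/-- the norm of `n` -/
noncomputable def nm (n : ℤ) : ℝ := dist ((σ ^ n) x₀) x₀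

theorem dist_zpow (m n : ℤ) (x : Q) : dist ((σ ^ m) x) ((σ ^ n) x) = dist ((σ ^ (m - n)) x) x := by
  have h1 : (σ ^ m) x = (σ ^ n) ((σ ^ (m - n)) x) := by
    rw [← IsometryEquiv.mul_apply, ← zpow_add]
    congr 2
    ring
  rw [h1]
  exact (σ ^ n).dist_eq _ _

theorem dist_pts (m n : ℤ) : dist ((σ ^ m) x₀) ((σ ^ n) x₀) = nm σ x₀ (m - n) :=
  dist_zpow σ m n x₀

theorem nm_zero : nm σ x₀ 0 = 0 := by unfold nm; simp

theorem nm_neg (n : ℤ) : nm σ x₀ (-n) = nm σ x₀ n := by
  have h1 := dist_pts σ x₀ 0 n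
  have h2 : ((σ ^ (0 : ℤ)) x₀) = x₀ := by simp
  rw [h2, dist_comm, zero_sub] at h1
  exact h1.symm

theorem nm_add (m n : ℤ) : nm σ x₀ (m + n) ≤ nm σ x₀ m + nm σ x₀ n := by
  have h1 := dist_triangle ((σ ^ (m + n)) x₀) ((σ ^ n) x₀) x₀
  rw [dist_pts] at h1
  have h2 : m + n - n = m := by ring
  rw [h2] at h1
  exact h1

variable (hQ : IsRationalUrysohn Q) (hσ : IsCyclicAut σ)

include hσ in
theorem nm_pos {n : ℤ} (hn : n ≠ 0) : 0 < nm σ x₀ n := by
  apply dist_pos.2
  intro h
  obtain ⟨k, _, hk⟩ := hσ x₀ x₀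
  have h1 := hk n h
  have h2 := hk 0 (by simp)
  exact hn (h1.trans h2.symm)

include hQ in
theorem nm_rat (n : ℤ) : ∃ q : ℚ, nm σ x₀ n = q := hQ.rational _ _

include hσ in
theorem inj {m n : ℤ} (h : (σ ^ m) x₀ = (σ ^ n) x₀) : m = n := by
  by_contra hne
  have h1 := nm_pos σ x₀ hσ (sub_ne_zero.2 hne)
  rw [← dist_pts, h, dist_self] at h1
  exact lt_irrefl _ h1

include hQ hσ in
/-- there are integers of prescribed norm whose double has small norm -/
theorem exists_far (v : ℚ) (hv : 0 < v) (k : ℕ) :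
    ∃ y : ℤ, nm σ x₀ (2 * y) ≤ v ∧ nm σ x₀ y = k * (v : ℝ) / 2 := by
  classical
  have hv' : (0 : ℝ) < v := by exact_mod_cast hv
  induction k with
  | zero => exact ⟨0, by rw [mul_zero, nm_zero]; exact hv'.le, by rw [nm_zero]; simp⟩
  | succ k ih =>
    obtain ⟨y, hy1, hy2⟩ := ih
    set p := (σ ^ y) x₀ with hp
    set q := (σ ^ (-y)) x₀ with hq
    have hpx : dist p x₀ = nm σ x₀ y := rfl
    have hqx : dist q x₀ = nm σ x₀ y := by rw [← nm_neg]; rfl
    have hpq : dist p q = nm σ x₀ (2 * y) := by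
      rw [hp, hq, dist_pts]; congr 1; ring
    set h : Q → ℝ := fun z => if z = x₀ then ((k : ℝ) + 1) * v / 2 else (v : ℝ) / 2 with hh
    have hhx : h x₀ = ((k : ℝ) + 1) * v / 2 := if_pos rfl
    -- the value at `p` and `q`
    have hval : ∀ z, dist z x₀ = nm σ x₀ y → h z = (v : ℝ) / 2 := by
      intro z hz
      by_cases hzx : z = x₀
      · rw [hzx, dist_self] at hz
        rw [hy2] at hz
        have hk : (k : ℝ) = 0 := by
          have h3 : (k : ℝ) * v = 0 := by linarith
          exact (mul_eq_zero.1 h3).resolve_right hv'.ne'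
        rw [hzx, hhx, hk]; ring
      · exact if_neg hzx
    have hhp := hval p hpx
    have hhq := hval q hqx
    have hk0 : (0 : ℝ) ≤ k := Nat.cast_nonneg k
    obtain ⟨z, hz⟩ := extension hQ {p, q, x₀} h (by
        intro a _
        rw [hh]; dsimp only
        split_ifs <;> positivity) (by
        intro a _
        rw [hh]; dsimp only
        split_ifs
        · exact ⟨((k : ℚ) + 1) * v / 2, by push_cast; ring⟩
        · exact ⟨v / 2, by push_cast; ring⟩) (by
        intro a ha b hb
        simp only [Finset.mem_insert, Finset.mem_singleton] at ha hb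
        have h0 : 0 ≤ dist a b := dist_nonneg
        rcases ha with rfl | rfl | rfl <;> rcases hb with rfl | rfl | rfl
        · linarith
        · rw [hhp, hhq]; linarith
        · rw [hhp, hhx]
          nlinarith
        · rw [hhp, hhq]; linarith
        · linarith
        · rw [hhq, hhx]
          nlinarith
        · rw [hhp, hhx, dist_comm, hpx, hy2]; linarith
        · rw [hhq, hhx, dist_comm, hqx, hy2]; linarith
        · linarith) (by
        intro a ha b hb
        simp only [Finset.mem_insert, Finset.mem_singleton] at ha hb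
        rcases ha with rfl | rfl | rfl <;> rcases hb with rfl | rfl | rfl
        · rw [dist_self, hhp]; linarith
        · rw [hpq, hhp, hhq]; linarith
        · rw [hpx, hhp, hhx, hy2]; nlinarith
        · rw [dist_comm, hpq, hhp, hhq]; linarith
        · rw [dist_self, hhq]; linarith
        · rw [hqx, hhq, hhx, hy2]; nlinarith
        · rw [dist_comm, hpx, hhp, hhx, hy2]; nlinarith
        · rw [dist_comm, hqx, hhq, hhx, hy2]; nlinarith
        · rw [dist_self, hhx]; positivity)
    obtain ⟨n, hn, _⟩ := hσ x₀ z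
    have hz' : z = (σ ^ n) x₀ := hn.symm
    have e1 : nm σ x₀ (n - y) = (v : ℝ) / 2 := by
      rw [← dist_pts, ← hz', ← hp, hz p (by simp), hhp]
    have e2 : nm σ x₀ (n + y) = (v : ℝ) / 2 := by
      have : n + y = n - (-y) := by ring
      rw [this, ← dist_pts, ← hz', ← hq, hz q (by simp), hhq]
    have e3 : nm σ x₀ n = ((k : ℝ) + 1) * v / 2 := by
      have : nm σ x₀ n = dist z x₀ := by rw [hz']; rfl
      rw [this, hz x₀ (by simp), hhx]
    refine ⟨n, ?_, by rw [e3]; push_cast; ring⟩
    have : 2 * n = (n - y) + (n + y) := by ring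
    rw [this]
    refine (nm_add σ x₀ _ _).trans ?_
    rw [e1, e2]; linarith

include hQ hσ in
/-- near every `g` there is `y` whose double has arbitrarily small norm -/
theorem exists_near (g : ℤ) (ε : ℚ) (hε : 0 < ε) (hεg : (ε : ℝ) ≤ nm σ x₀ (2 * g)) :
    ∃ y : ℤ, nm σ x₀ (2 * y) ≤ ε ∧ nm σ x₀ (y - g) = nm σ x₀ (2 * g) / 2 := by
  classical
  have hε' : (0 : ℝ) < ε := by exact_mod_cast hε
  obtain ⟨v, hv⟩ := nm_rat σ x₀ hQ (2 * g)
  obtain ⟨w, hw⟩ := nm_rat σ x₀ hQ g
  rw [hv] at hεg
  -- the inductive statement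
  have key : ∀ k : ℕ, ∃ y : ℤ, nm σ x₀ (2 * y) ≤ ε ∧
      nm σ x₀ (y - g) = max ((v : ℝ) / 2) ((w : ℝ) - k * (ε / 2)) ∧
      nm σ x₀ (y + g) = max ((v : ℝ) / 2) ((w : ℝ) - k * (ε / 2)) := by
    intro k
    induction k with
    | zero =>
      have h1 : (v : ℝ) / 2 ≤ w := by
        have h2 := nm_add σ x₀ g g
        rw [← two_mul, hv, hw] at h2
        linarith
      refine ⟨0, by rw [mul_zero, nm_zero]; exact hε'.le, ?_, ?_⟩
      · rw [zero_sub, nm_neg, hw]; simp [h1]
      · rw [zero_add, hw]; simp [h1]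
    | succ k ih =>
      obtain ⟨y, hy1, hy2, hy3⟩ := ih
      set D : ℝ := max ((v : ℝ) / 2) ((w : ℝ) - k * (ε / 2)) with hD
      set D' : ℝ := max ((v : ℝ) / 2) ((w : ℝ) - (k + 1 : ℕ) * (ε / 2)) with hD'
      have hDv : (v : ℝ) / 2 ≤ D' := le_max_left _ _
      have hDε : (ε : ℝ) / 2 ≤ D' := by linarith
      have hDD : D' ≤ D := by
        apply max_le_max le_rfl
        push_cast
        linarith
      have hDD2 : D ≤ D' + ε / 2 := by
        apply max_le
        · linarith
        · have := le_max_right ((v : ℝ) / 2) ((w : ℝ) - (k + 1 : ℕ) * (ε / 2))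
          rw [← hD'] at this
          push_cast at this
          linarith
      set p := (σ ^ y) x₀ with hp
      set q := (σ ^ (-y)) x₀ with hq
      set a := (σ ^ g) x₀ with ha
      set b := (σ ^ (-g)) x₀ with hb
      have hpa : dist p a = D := by rw [hp, ha, dist_pts, hy2]
      have hpb : dist p b = D := by
        rw [hp, hb, dist_pts, ← hy3]; congr 1; ring
      have hqa : dist q a = D := by
        rw [hq, ha, dist_pts, ← hy3, ← nm_neg]; congr 1; ring
      have hqb : dist q b = D := by
        rw [hq, hb, dist_pts, ← hy2, ← nm_neg]; congr 1; ring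
      have hpq : dist p q = nm σ x₀ (2 * y) := by
        rw [hp, hq, dist_pts]; congr 1; ring
      have hab : dist a b = v := by
        rw [ha, hb, dist_pts, ← hv]; congr 1; ring
      have hD0 : 0 < D := by linarith
      have hpa' : a ≠ p := by
        intro h; rw [h, dist_self] at hpa; linarith
      have hqa' : a ≠ q := by
        intro h; rw [h, dist_self] at hqa; linarith
      have hpb' : b ≠ p := by
        intro h; rw [h, dist_self] at hpb; linarith
      have hqb' : b ≠ q := by
        intro h; rw [h, dist_self] at hqb; linarith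
      set h : Q → ℝ := fun z => if z = p ∨ z = q then (ε : ℝ) / 2 else D' with hh
      have hhp : h p = (ε : ℝ) / 2 := if_pos (Or.inl rfl)
      have hhq : h q = (ε : ℝ) / 2 := if_pos (Or.inr rfl)
      have hha : h a = D' := if_neg (by rintro (h | h); exacts [hpa' h, hqa' h])
      have hhb : h b = D' := if_neg (by rintro (h | h); exacts [hpb' h, hqb' h])
      obtain ⟨z, hz⟩ := extension hQ {p, q, a, b} h (by
          intro c _
          rw [hh]; dsimp only
          split_ifs <;> linarith) (by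
          intro c _
          rw [hh]; dsimp only
          split_ifs
          · exact ⟨ε / 2, by push_cast; ring⟩
          · exact ⟨max (v / 2) (w - (k + 1 : ℕ) * (ε / 2)), by rw [hD']; push_cast; ring_nf⟩) (by
          intro c hc d hd
          simp only [Finset.mem_insert, Finset.mem_singleton] at hc hd
          have h0 : 0 ≤ dist c d := dist_nonneg
          rcases hc with rfl | rfl | rfl | rfl <;> rcases hd with rfl | rfl | rfl | rfl
          · linarith
          · rw [hhp, hhq]; linarith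
          · rw [hhp, hha]; linarith
          · rw [hhp, hhb]; linarith
          · rw [hhp, hhq]; linarith
          · linarith
          · rw [hhq, hha]; linarith
          · rw [hhq, hhb]; linarith
          · rw [hhp, hha, dist_comm, hpa]; linarith
          · rw [hhq, hha, dist_comm, hqa]; linarith
          · linarith
          · rw [hha, hhb]; linarith
          · rw [hhp, hhb, dist_comm, hpb]; linarith
          · rw [hhq, hhb, dist_comm, hqb]; linarith
          · rw [hha, hhb]; linarith
          · linarith) (by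
          intro c hc d hd
          simp only [Finset.mem_insert, Finset.mem_singleton] at hc hd
          rcases hc with rfl | rfl | rfl | rfl <;> rcases hd with rfl | rfl | rfl | rfl
          · rw [dist_self, hhp]; linarith
          · rw [hpq, hhp, hhq]; linarith
          · rw [hpa, hhp, hha]; linarith
          · rw [hpb, hhp, hhb]; linarith
          · rw [dist_comm, hpq, hhp, hhq]; linarith
          · rw [dist_self, hhq]; linarith
          · rw [hqa, hhq, hha]; linarith
          · rw [hqb, hhq, hhb]; linarith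
          · rw [dist_comm, hpa, hhp, hha]; linarith
          · rw [dist_comm, hqa, hhq, hha]; linarith
          · rw [dist_self, hha]; linarith
          · rw [hab, hha, hhb]; linarith
          · rw [dist_comm, hpb, hhp, hhb]; linarith
          · rw [dist_comm, hqb, hhq, hhb]; linarith
          · rw [dist_comm, hab, hha, hhb]; linarith
          · rw [dist_self, hhb]; linarith)
      obtain ⟨n, hn, _⟩ := hσ x₀ z
      have hz' : z = (σ ^ n) x₀ := hn.symm
      have e1 : nm σ x₀ (n - y) = (ε : ℝ) / 2 := by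
        rw [← dist_pts, ← hz', ← hp, hz p (by simp), hhp]
      have e2 : nm σ x₀ (n + y) = (ε : ℝ) / 2 := by
        have : n + y = n - (-y) := by ring
        rw [this, ← dist_pts, ← hz', ← hq, hz q (by simp), hhq]
      have e3 : nm σ x₀ (n - g) = D' := by
        rw [← dist_pts, ← hz', ← ha, hz a (by simp), hha]
      have e4 : nm σ x₀ (n + g) = D' := by
        have : n + g = n - (-g) := by ring
        rw [this, ← dist_pts, ← hz', ← hb, hz b (by simp), hhb]
      refine ⟨n, ?_, e3, e4⟩
      have : 2 * n = (n - y) + (n + y) := by ring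
      rw [this]
      refine (nm_add σ x₀ _ _).trans ?_
      rw [e1, e2]; linarith
  obtain ⟨k, hk⟩ := exists_nat_ge ((w : ℝ) / (ε / 2))
  obtain ⟨y, hy1, hy2, _⟩ := key k
  refine ⟨y, hy1, ?_⟩
  rw [hy2, hv]
  apply max_eq_left
  rw [div_le_iff₀ (by positivity)] at hk
  linarith

include hQ hσ in
/-- one step of the construction -/
theorem step (i : ℕ) (g : ℤ) (hg0 : g ≠ 0) :
    ∃ y : ℤ, nm σ x₀ (2 * y) ≤ (1 / 2 : ℝ) ^ (i + 1) ∧
      nm σ x₀ (y - g) = nm σ x₀ (2 * g) / 2 := by
  have h2g : 0 < nm σ x₀ (2 * g) := nm_pos σ x₀ hσ (by omega)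
  obtain ⟨v, hv⟩ := nm_rat σ x₀ hQ (2 * g)
  have hv0 : (0 : ℚ) < v := by rw [hv] at h2g; exact_mod_cast h2g
  obtain ⟨y, hy1, hy2⟩ := exists_near σ x₀ hQ hσ g (min v ((1 / 2 : ℚ) ^ (i + 1)))
    (lt_min hv0 (by positivity)) (by
      rw [hv]
      exact_mod_cast min_le_left _ _)
  refine ⟨y, hy1.trans ?_, hy2⟩
  have h3 : (min v ((1 / 2 : ℚ) ^ (i + 1))) ≤ (1 / 2 : ℚ) ^ (i + 1) := min_le_right _ _
  have h4 : ((min v ((1 / 2 : ℚ) ^ (i + 1)) : ℚ) : ℝ) ≤ (((1 / 2 : ℚ) ^ (i + 1) : ℚ) : ℝ) := by
    exact_mod_cast h3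
  refine h4.trans (le_of_eq ?_)
  push_cast
  ring

include hQ hσ in
/-- the sequence of exponents -/
theorem exists_seq : ∃ g : ℕ → ℤ, (∀ i, nm σ x₀ (2 * g i) ≤ (1 / 2 : ℝ) ^ (i + 1)) ∧
    (∀ i, 1 / 2 + (1 / 2 : ℝ) ^ (i + 1) ≤ nm σ x₀ (g i)) ∧
    (∀ i, nm σ x₀ (g (i + 1) - g i) ≤ (1 / 2 : ℝ) ^ (i + 2)) := by
  classical
  obtain ⟨y0, hy0, hy0'⟩ := exists_far σ x₀ hQ hσ (1 / 2) (by norm_num) 4
  have hstep := fun i (g : {g : ℤ // g ≠ 0}) => step σ x₀ hQ hσ (i + 1) g.1 g.2
  -- the sequence with its invariants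
  have key : ∀ i : ℕ, ∀ g : {g : ℤ // nm σ x₀ (2 * g) ≤ (1 / 2 : ℝ) ^ (i + 1) ∧
      1 / 2 + (1 / 2 : ℝ) ^ (i + 1) ≤ nm σ x₀ g},
      ∃ g' : {g : ℤ // nm σ x₀ (2 * g) ≤ (1 / 2 : ℝ) ^ (i + 1 + 1) ∧
      1 / 2 + (1 / 2 : ℝ) ^ (i + 1 + 1) ≤ nm σ x₀ g}, nm σ x₀ (g'.1 - g.1) ≤ (1 / 2 : ℝ) ^ (i + 2) := by
    rintro i ⟨g, hg1, hg2⟩
    have hg0 : g ≠ 0 := by
      rintro rfl
      rw [nm_zero] at hg2
      have : (0 : ℝ) < (1 / 2 : ℝ) ^ (i + 1) := by positivity
      linarith
    obtain ⟨y, hy1, hy2⟩ := step σ x₀ hQ hσ (i + 1) g hg0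
    have hp : (1 / 2 : ℝ) ^ (i + 2) = (1 / 2 : ℝ) ^ (i + 1) / 2 := by rw [pow_succ]; ring
    have hd : nm σ x₀ (y - g) ≤ (1 / 2 : ℝ) ^ (i + 2) := by rw [hy2, hp]; linarith
    refine ⟨⟨y, hy1, ?_⟩, hd⟩
    have h1 := nm_add σ x₀ (g - y) y
    have h2 : g - y + y = g := by ring
    have h3 : nm σ x₀ (g - y) = nm σ x₀ (y - g) := by
      rw [← nm_neg]; congr 1; ring
    rw [h2, h3] at h1
    have h4 : (1 / 2 : ℝ) ^ (i + 1 + 1) = (1 / 2 : ℝ) ^ (i + 1) / 2 := hp
    rw [h4]
    rw [hp] at hd
    linarith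
  choose nxt hnxt using key
  let G : ∀ i : ℕ, {g : ℤ // nm σ x₀ (2 * g) ≤ (1 / 2 : ℝ) ^ (i + 1) ∧
      1 / 2 + (1 / 2 : ℝ) ^ (i + 1) ≤ nm σ x₀ g} := fun i =>
    Nat.rec ⟨y0, by
      refine ⟨hy0.trans (le_of_eq ?_), ?_⟩
      · push_cast; norm_num
      · rw [hy0']; push_cast; norm_num⟩ (fun i g => nxt i g) i
  exact ⟨fun i => (G i).1, fun i => (G i).2.1, fun i => (G i).2.2, fun i => hnxt i (G i)⟩

end Chain

section Final

variable {Q : Type} [MetricSpace Q] (σ : Q ≃ᵢ Q)
variable {U : Type} [MetricSpace U] (ι : Q → U) (hι : Isometry ι) (hd : DenseRange ι)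
  (τ : U ≃ᵢ U) (hτ : ∀ x, τ (ι x) = ι (σ x))

include hτ in
theorem tau_zpow (n : ℤ) (x : Q) : (τ ^ n) (ι x) = ι ((σ ^ n) x) := by
  induction n using Int.induction_on generalizing x with
  | zero => simp
  | succ n ih =>
    rw [zpow_add, zpow_add, zpow_one, zpow_one, IsometryEquiv.mul_apply, IsometryEquiv.mul_apply,
      hτ, ih]
  | pred n ih =>
    rw [sub_eq_add_neg, zpow_add, zpow_add, IsometryEquiv.mul_apply, IsometryEquiv.mul_apply]
    have h1 : (τ ^ (-1 : ℤ)) (ι x) = ι ((σ ^ (-1 : ℤ)) x) := by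
      have h2 : τ (ι ((σ ^ (-1 : ℤ)) x)) = ι x := by
        rw [hτ, ← IsometryEquiv.mul_apply]
        congr 1
        rw [← zpow_one_add]
        simp
      rw [← h2, ← IsometryEquiv.mul_apply, ← zpow_add_one]
      simp
    rw [h1, ih]

include hι hd hτ in
/-- the displacement of a power of `τ` is constant -/
theorem dist_tau (hσ : IsCyclicAut σ) (x₀ : Q) (m n : ℤ) (u : U) :
    dist ((τ ^ m) u) ((τ ^ n) u) = nm σ x₀ (m - n) := by
  have hclosed : IsClosed {u : U | dist ((τ ^ m) u) ((τ ^ n) u) = nm σ x₀ (m - n)} :=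
    isClosed_eq (Continuous.dist (τ ^ m).continuous (τ ^ n).continuous) continuous_const
  have hsub : Set.range ι ⊆ {u : U | dist ((τ ^ m) u) ((τ ^ n) u) = nm σ x₀ (m - n)} := by
    rintro _ ⟨x, rfl⟩
    change dist ((τ ^ m) (ι x)) ((τ ^ n) (ι x)) = nm σ x₀ (m - n)
    rw [tau_zpow σ ι τ hτ, tau_zpow σ ι τ hτ, hι.dist_eq, dist_zpow]
    obtain ⟨k, hk, _⟩ := hσ x₀ x
    have hk' : x = (σ ^ k) x₀ := hk.symm
    rw [hk', ← IsometryEquiv.mul_apply, ← zpow_add, add_comm, zpow_add, IsometryEquiv.mul_apply]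
    exact (σ ^ k).dist_eq _ _
  have h3 : closure (Set.range ι) ⊆ {u : U | dist ((τ ^ m) u) ((τ ^ n) u) = nm σ x₀ (m - n)} :=
    hclosed.closure_subset_iff.2 hsub
  exact h3 (hd u)

end Final

/-- **Main result.** For every cyclic automorphism `σ` of the rational Urysohn space `Q`, with
`U` a completion of `Q` and `τ` the extension of `σ` to `U`, the closure of `⟨τ⟩` in the isometry
group of `U` contains an isometry `g ≠ 1` with `g * g = 1`. -/
theorem result (Q : Type) [MetricSpace Q] (hQ : IsRationalUrysohn Q)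
    (σ : Q ≃ᵢ Q) (hσ : IsCyclicAut σ)
    (U : Type) [MetricSpace U] [CompleteSpace U] (ι : Q → U) (hι : Isometry ι)
    (hd : DenseRange ι) (τ : U ≃ᵢ U) (hτ : ∀ x, τ (ι x) = ι (σ x)) :
    ∃ g : U ≃ᵢ U, InClosure τ g ∧ g ≠ 1 ∧ g * g = 1 := by
  classical
  -- `Q` is nonempty
  obtain ⟨f, _⟩ := hQ.universal PUnit (fun x y => ⟨0, by simp⟩)
  set x₀ : Q := f PUnit.unit with hx₀
  obtain ⟨g, hg1, hg2, hg3⟩ := exists_seq σ x₀ hQ hσ
  -- pointwise limits
  have hdist : ∀ (m n : ℤ) (u : U), dist ((τ ^ m) u) ((τ ^ n) u) = nm σ x₀ (m - n) :=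
    fun m n u => dist_tau σ ι hι hd τ hτ hσ x₀ m n u
  have hstep : ∀ (u : U) (i : ℕ), dist ((τ ^ (g i)) u) ((τ ^ (g (i + 1))) u)
      ≤ (1 / 4 : ℝ) * (1 / 2 : ℝ) ^ i := by
    intro u i
    rw [dist_comm, hdist]
    refine (hg3 i).trans (le_of_eq ?_)
    rw [pow_add]; ring
  have hc : ∀ u : U, CauchySeq (fun i => (τ ^ (g i)) u) := fun u =>
    cauchySeq_of_le_geometric (1 / 2) (1 / 4) (by norm_num) (hstep u)
  have hlim : ∀ u : U, ∃ v : U, Tendsto (fun i => (τ ^ (g i)) u) atTop (𝓝 v) := fun u =>
    cauchySeq_tendsto_of_complete (hc u)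
  choose T hT using hlim
  have hTd : ∀ (u : U) (i : ℕ), dist ((τ ^ (g i)) u) (T u) ≤ (1 / 2 : ℝ) * (1 / 2 : ℝ) ^ i := by
    intro u i
    have := dist_le_of_le_geometric_of_tendsto (1 / 2) (1 / 4) (by norm_num) (hstep u) (hT u) i
    refine this.trans (le_of_eq ?_)
    ring
  have hiso : Isometry T := by
    apply Isometry.of_dist_eq
    intro u v
    have h1 : Tendsto (fun i => dist ((τ ^ (g i)) u) ((τ ^ (g i)) v)) atTop (𝓝 (dist (T u) (T v))) :=
      (hT u).dist (hT v)
    have h2 : (fun i => dist ((τ ^ (g i)) u) ((τ ^ (g i)) v)) = fun _ => dist u v := by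
      funext i
      exact (τ ^ (g i)).dist_eq _ _
    rw [h2] at h1
    exact (tendsto_nhds_unique h1 tendsto_const_nhds)
  have hinv : ∀ u, T (T u) = u := by
    intro u
    -- the distance is bounded by everything
    have h1 : ∀ i : ℕ, dist (T (T u)) u ≤ 2 * (1 / 2 : ℝ) ^ i := by
      intro i
      have a1 : dist (T (T u)) ((τ ^ (g i)) (T u)) ≤ (1 / 2 : ℝ) * (1 / 2 : ℝ) ^ i := by
        rw [dist_comm]; exact hTd (T u) i
      have a2 : dist ((τ ^ (g i)) (T u)) ((τ ^ (g i)) ((τ ^ (g i)) u))
          ≤ (1 / 2 : ℝ) * (1 / 2 : ℝ) ^ i := by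
        rw [(τ ^ (g i)).dist_eq, dist_comm]; exact hTd u i
      have a3 : dist ((τ ^ (g i)) ((τ ^ (g i)) u)) u ≤ (1 / 2 : ℝ) ^ (i + 1) := by
        have h3 := hdist (2 * g i) 0 u
        rw [sub_zero] at h3
        have h4 : (τ ^ (2 * g i)) u = (τ ^ (g i)) ((τ ^ (g i)) u) := by
          rw [← IsometryEquiv.mul_apply, ← zpow_add, two_mul]
        rw [h4] at h3
        have h5 : (τ ^ (0 : ℤ)) u = u := by simp
        rw [h5] at h3
        rw [h3]
        exact hg1 i
      have a4 := dist_triangle (T (T u)) ((τ ^ (g i)) (T u)) u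
      have a5 := dist_triangle ((τ ^ (g i)) (T u)) ((τ ^ (g i)) ((τ ^ (g i)) u)) u
      have a6 : (1 / 2 : ℝ) ^ (i + 1) = (1 / 2 : ℝ) ^ i / 2 := by rw [pow_succ]; ring
      have a7 : (0 : ℝ) < (1 / 2 : ℝ) ^ i := by positivity
      rw [a6] at a3
      linarith
    have h2 : Tendsto (fun i : ℕ => 2 * (1 / 2 : ℝ) ^ i) atTop (𝓝 (2 * 0)) :=
      (tendsto_pow_atTop_nhds_zero_of_lt_one (by norm_num) (by norm_num)).const_mul 2
    rw [mul_zero] at h2
    have h3 : dist (T (T u)) u ≤ 0 := ge_of_tendsto' h2 h1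
    exact dist_le_zero.1 h3
  let S : U ≃ᵢ U :=
    { toFun := T
      invFun := T
      left_inv := hinv
      right_inv := hinv
      isometry_toFun := hiso }
  have hS : ∀ u, S u = T u := fun u => rfl
  refine ⟨S, ?_, ?_, ?_⟩
  · intro s ε hε
    have h2 : Tendsto (fun i : ℕ => (1 / 2 : ℝ) * (1 / 2 : ℝ) ^ i) atTop (𝓝 ((1 / 2) * 0)) :=
      (tendsto_pow_atTop_nhds_zero_of_lt_one (by norm_num) (by norm_num)).const_mul (1 / 2)
    rw [mul_zero] at h2
    obtain ⟨i, hi⟩ := (h2.eventually (gt_mem_nhds hε)).exists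
    exact ⟨g i, fun x _ => lt_of_le_of_lt (hTd x i) hi⟩
  · intro h
    have h1 : T (ι x₀) = ι x₀ := by
      rw [← hS, h]; rfl
    have h2 := hTd (ι x₀) 0
    have h3 : dist ((τ ^ (g 0)) (ι x₀)) (ι x₀) = nm σ x₀ (g 0) := by
      have := hdist (g 0) 0 (ι x₀)
      rw [sub_zero] at this
      have h5 : (τ ^ (0 : ℤ)) (ι x₀) = ι x₀ := by simp
      rw [h5] at this
      exact this
    rw [h1, h3] at h2
    have h4 := hg2 0
    norm_num at h2 h4
    linarith
  · ext u
    rw [IsometryEquiv.mul_apply]
    exact hinv u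

end Pool.Agent.Results.MP_30c7ca_gt.OrderTwo
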